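import Pool.Agent.Helper231_PCP.Main

set_option autoImplicit false

/-! # `PCP(4)` for nonempty binary words: the two-parameter family of instances

The starting library simulates a one-register machine by the four pairs `gI k`, `hI k u` over three
letters.  Here these pairs are made explicit, with computable parameters `k`, `u`, and encoded over
the binary alphabet. -/

namespace Pool.Agent.U19.PC

open Pool.Agent.Helper231_PCP

/-- the family of instances behind `Pool.Agent.Helper231_PCP.family`, for four pairs, with its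
parameters -/
theorem family4 : ∃ (K : ℕ → ℕ) (U : ℕ → List Bool), Computable K ∧ Computable U ∧
    (∀ n, 2 ≤ K n ∧ U n ≠ []) ∧
    ¬ ComputablePred (fun n => PCPpos (gI (K n), hI (K n) (U n))) := by
  obtain ⟨Q, hQ, M, q0, N, hP, hmu, hN, hund⟩ := stE
  obtain ⟨tb, cb, A, a, hadm, hAl, hal, hcA, hca, hsim⟩ := stD M hP hmu q0
  -- bound for the productions
  obtain ⟨K1, hK1⟩ : ∃ K1, ∀ w ∈ tb, w.length ≤ K1 := by
    refine ⟨(tb.map List.length).sum, fun w hw => ?_⟩
    exact List.single_le_sum (by simp) _ (List.mem_map_of_mem hw)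
  have hc : ∀ n, 2 ≤ kk M.P (K1 + 2 + n) tb ∧
      (PCPpos (gI (kk M.P (K1 + 2 + n) tb), hI (kk M.P (K1 + 2 + n) tb)
        (uu M.P (K1 + 2 + n) tb cb (A :: List.replicate n a))) ↔ M.Halts (some q0) n) := by
    intro n
    have hw : (A :: List.replicate n a) ≠ [] := by simp
    have hK : ∀ w ∈ tb, w.length ≤ K1 + 2 + n := fun w hw => (hK1 w hw).trans (by omega)
    have hwK : (A :: List.replicate n a).length < K1 + 2 + n := by simp; omega
    have hwr : ∀ l ∈ (A :: List.replicate n a), co cb l = 0 := by
      intro l hl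
      rcases List.mem_cons.1 hl with rfl | hl
      · exact hcA
      · rw [List.eq_of_mem_replicate hl]; exact hca
    obtain ⟨c1, c2, c3, c4, c5, c6, c7⟩ := stC0 hP hadm hK hwK hwr
    have e2 := stA _ _ _ c1 c3 c4 c5 c6 c7
    have e3 := stB _ _ _ c1 c3 c4 c5 c6 c7
    rw [← c2] at e3
    have e4 := stC1 hP hadm hK hw hwK (cb := cb)
    have e5 := stC2 hP hadm hK hw hwK (cb := cb)
    refine ⟨c1, e2.trans ?_⟩
    rw [← c2]
    rw [e3]
    constructor
    · intro h
      by_contra hh
      exact e5 ((hsim n).2 hh) h
    · intro h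
      exact e4 ((hsim n).1 h)
  have hKp : Primrec (fun n : ℕ => K1 + 2 + n) := p_add (Primrec.const _) Primrec.id
  have hkp := p_kk (P := M.P) (tb := tb) hKp
  have hwp : Primrec (fun n : ℕ => A :: List.replicate n a) :=
    Primrec.list_cons.comp (Primrec.const _) (p_replicate a Primrec.id)
  have hup := p_uu (P := M.P) (tb := tb) (cb := cb) hKp hwp
  refine ⟨fun n => kk M.P (K1 + 2 + N n) tb,
    fun n => uu M.P (K1 + 2 + N n) tb cb (A :: List.replicate (N n) a),
    hkp.to_comp.comp hN, hup.to_comp.comp hN, ?_, ?_⟩
  · intro n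
    refine ⟨(hc (N n)).1, ?_⟩
    intro h
    have := congrArg List.length h
    simp [uu] at this
  · intro hdec
    exact hund (hdec.of_eq (fun n => (hc (N n)).2))

/-! ## the binary code -/

/-- binary code of the letters `0, 1, 2` -/
def cB (x : ℕ) : List Bool :=
  if x = 0 then [false, false] else if x = 1 then [false, true] else [true, false]

theorem cB_length (x : ℕ) : (cB x).length = 2 := by
  unfold cB; split_ifs <;> rfl

theorem cB_inj {x y : ℕ} (hx : x ≤ 2) (hy : y ≤ 2) (h : cB x = cB y) : x = y := by
  interval_cases x <;> interval_cases y <;> simp_all [cB]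

theorem code_inj : ∀ (x y : List ℕ), (∀ a ∈ x, a ≤ 2) → (∀ a ∈ y, a ≤ 2) →
    x.flatMap cB = y.flatMap cB → x = y
  | [], [], _, _, _ => rfl
  | [], b :: y, _, _, h => by
      exfalso
      have := congrArg List.length h
      rw [List.flatMap_cons, List.length_append, cB_length] at this
      simp at this
      omega
  | a :: x, [], _, _, h => by
      exfalso
      have := congrArg List.length h
      rw [List.flatMap_cons, List.length_append, cB_length] at this
      simp at this
  | a :: x, b :: y, hx, hy, h => by
      rw [List.flatMap_cons, List.flatMap_cons] at h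
      have h1 := List.append_inj h (by rw [cB_length, cB_length])
      have h2 : a = b := cB_inj (hx a (by simp)) (hy b (by simp)) h1.1
      have h3 := code_inj x y (fun a ha => hx a (by simp [ha])) (fun a ha => hy a (by simp [ha]))
        h1.2
      rw [h2, h3]

theorem code_ne_nil {x : List ℕ} (hx : x ≠ []) : x.flatMap cB ≠ [] := by
  obtain ⟨a, l, rfl⟩ := List.exists_cons_of_ne_nil hx
  intro h
  have := congrArg List.length h
  simp [cB_length] at this

theorem code_replicate (k : ℕ) : (List.replicate k 0).flatMap cB = List.replicate (2 * k) false := by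
  induction k with
  | zero => rfl
  | succ k ih =>
    rw [List.replicate_succ, List.flatMap_cons, ih, show 2 * (k + 1) = 2 * k + 1 + 1 from by ring,
      List.replicate_succ, List.replicate_succ]
    rfl

theorem cd_le (x : Bool) : cd x ≤ 2 := by cases x <;> simp [cd]

theorem gI_le (k : ℕ) (j : Fin 4) : ∀ x ∈ gI k j, x ≤ 2 := by
  fin_cases j <;> simp [gI]

theorem encm_le (k : ℕ) (u : List Bool) : ∀ x ∈ encm k u, x ≤ 2 := by
  intro x hx
  unfold encm at hx
  have := List.mem_of_mem_drop hx
  rw [List.mem_flatMap] at this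
  obtain ⟨y, _, hy⟩ := this
  rw [List.mem_append, List.mem_replicate, List.mem_singleton] at hy
  rcases hy with ⟨_, rfl⟩ | rfl
  · omega
  · exact cd_le y

theorem encm_ne (k : ℕ) {u : List Bool} (hu : u ≠ []) : encm k u ≠ [] := by
  obtain ⟨x, v, rfl⟩ := List.exists_cons_of_ne_nil hu
  unfold encm
  intro h
  rw [List.drop_eq_nil_iff] at h
  simp at h

theorem hI_le (k : ℕ) (u : List Bool) (j : Fin 4) : ∀ x ∈ hI k u j, x ≤ 2 := by
  fin_cases j
  · simp [hI]
  · simp [hI]
  · simp [hI]
  · exact encm_le k u

end Pool.Agent.U19.PC
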